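import Pool.Agent.H96.KX.Targets

namespace Pool.Agent.H63.KX

open Finset Pool.Agent.H96.KX

/-- the density of a point -/
lemma bip_some {Z : Type} [Fintype Z] [DecidableEq Z] {N : ℕ} (y z : Fin N → Z) :
    jun (fun i => some (y i)) z = if z = y then (Fintype.card Z : ℝ) ^ N else 0 := by
  by_cases h : z = y
  · subst h
    simp [jun, fac]
  · rw [if_neg h]
    obtain ⟨i, hi⟩ := Function.ne_iff.1 h
    exact Finset.prod_eq_zero (Finset.mem_univ i) (by simp [fac, hi])

lemma bip_fac_nonneg {Z : Type} [Fintype Z] [DecidableEq Z] (o : Option Z) (z : Z) :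
    0 ≤ fac o z := by
  cases o with
  | none => simp [fac]
  | some θ =>
    simp only [fac]
    split_ifs
    · exact Nat.cast_nonneg _
    · exact le_refl _

lemma bip_nonneg {Z : Type} [Fintype Z] [DecidableEq Z] {N : ℕ} (τ : Fin N → Option Z)
    (z : Fin N → Z) : 0 ≤ jun τ z :=
  Finset.prod_nonneg fun _ _ => bip_fac_nonneg _ _

lemma bip_fac_sum {Z : Type} [Fintype Z] [DecidableEq Z] (o : Option Z) :
    ∑ z, fac o z = (Fintype.card Z : ℝ) := by
  cases o with
  | none => simp [fac]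
  | some θ => simp [fac]

lemma bip_sum {Z : Type} [Fintype Z] [DecidableEq Z] {N : ℕ} (τ : Fin N → Option Z) :
    ∑ z, jun τ z = (Fintype.card Z : ℝ) ^ N := by
  unfold jun
  have h := (Finset.prod_univ_sum (fun _ : Fin N => (univ : Finset Z))
    (fun i z => fac (τ i) z)).symm
  rw [Fintype.piFinset_univ] at h
  rw [h]
  simp [bip_fac_sum]

/-- BIP -/
theorem pf_BIP (hK : S_KAP) : S_BIP := by
  intro H U Z _ _ _ _ _ _ _ h hp hQ N t D Mx hD hpos f g hf hg
  obtain ⟨w, hw0, hrho, hX⟩ := hK H U Z h hp hQ N t f hf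
  have hQ0 : (0 : ℝ) < (Fintype.card Z : ℝ) ^ N := by
    have : 0 < Fintype.card Z := Fintype.card_pos
    positivity
  have hMx : 0 ≤ Mx := by
    obtain ⟨z⟩ := (inferInstance : Nonempty (Fin N → Z))
    exact (abs_nonneg _).trans (hD z)
  set X : (Fin N → U) → ℝ := fun x => ∑ τ with t ≤ psz τ, w x τ with hXdef
  have hA : ∀ x, (Fintype.card Z : ℝ) ^ N * ∑ a, f a * D (fun i => h (a i) (x i)) =
      ∑ z, rho h f x z * D z := by
    intro x
    have : ∀ z, rho h f x z * D z =
        ∑ a, f a * (jun (fun i => some (h (a i) (x i))) z * D z) := by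
      intro z
      unfold rho
      rw [Finset.sum_mul]
      exact Finset.sum_congr rfl fun a _ => by ring
    simp only [this]
    rw [Finset.sum_comm, Finset.mul_sum]
    refine Finset.sum_congr rfl fun a _ => ?_
    rw [← Finset.mul_sum]
    have h2 : ∑ z, jun (fun i => some (h (a i) (x i))) z * D z =
        (Fintype.card Z : ℝ) ^ N * D (fun i => h (a i) (x i)) := by
      have h3 : ∀ z, jun (fun i => some (h (a i) (x i))) z * D z =
          if z = (fun i => h (a i) (x i)) then (Fintype.card Z : ℝ) ^ N * D z else 0 := by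
        intro z
        rw [bip_some (fun i => h (a i) (x i)) z]
        split_ifs <;> simp
      simp only [h3]
      rw [Finset.sum_ite_eq' univ (fun i => h (a i) (x i))
        (fun z => (Fintype.card Z : ℝ) ^ N * D z)]
      simp
    rw [h2]
    ring
  have hB : ∀ x, -(Mx * X x) ≤ ∑ a, f a * D (fun i => h (a i) (x i)) := by
    intro x
    have h1 : ∑ z, rho h f x z * D z = ∑ τ, w x τ * ∑ z, jun τ z * D z := by
      simp only [hrho, Finset.sum_mul, Finset.mul_sum]
      rw [Finset.sum_comm]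
      exact Finset.sum_congr rfl fun τ _ => Finset.sum_congr rfl fun z _ => by ring
    have hlow : ∀ τ : Fin N → Option Z, -(Mx * (Fintype.card Z : ℝ) ^ N) ≤ ∑ z, jun τ z * D z := by
      intro τ
      rw [← bip_sum τ, Finset.mul_sum, ← Finset.sum_neg_distrib]
      refine Finset.sum_le_sum fun z _ => ?_
      have h3 := (abs_le.1 (hD z)).1
      have h4 := bip_nonneg τ z
      nlinarith
    have h2 : ∑ τ, w x τ * ∑ z, jun τ z * D z ≥
        ∑ τ, (if t ≤ psz τ then -(Mx * (Fintype.card Z : ℝ) ^ N) * w x τ else 0) := by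
      refine Finset.sum_le_sum fun τ _ => ?_
      split_ifs with ht
      · rw [mul_comm]
        exact mul_le_mul_of_nonneg_left (hlow τ) (hw0 x τ)
      · exact mul_nonneg (hw0 x τ) (hpos τ (not_le.1 ht))
    rw [← Finset.sum_filter, ← Finset.mul_sum] at h2
    have h3 : (Fintype.card Z : ℝ) ^ N * (-(Mx * X x)) ≤
        (Fintype.card Z : ℝ) ^ N * ∑ a, f a * D (fun i => h (a i) (x i)) := by
      rw [hA x, h1]
      refine le_trans (le_of_eq ?_) h2
      simp only [hXdef]
      ring
    exact le_of_mul_le_mul_left h3 hQ0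
  have hC : bil h D f g = ∑ x, g x * ∑ a, f a * D (fun i => h (a i) (x i)) := by
    unfold bil
    rw [Finset.sum_comm]
    refine Finset.sum_congr rfl fun x _ => ?_
    rw [Finset.mul_sum]
    exact Finset.sum_congr rfl fun a _ => by ring
  rw [hC]
  have h5 : ∑ x, g x * X x ≤ Real.sqrt (kap H U Z N t * ((∑ a, f a ^ 2) * ∑ x, g x ^ 2)) := by
    refine (Real.sum_mul_le_sqrt_mul_sqrt univ g X).trans ?_
    rw [← Real.sqrt_mul (Finset.sum_nonneg fun x _ => sq_nonneg _)]
    refine Real.sqrt_le_sqrt ?_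
    have h6 : ∑ x, X x ^ 2 ≤ kap H U Z N t * ∑ a, f a ^ 2 := hX
    have h7 : 0 ≤ ∑ x, g x ^ 2 := Finset.sum_nonneg fun x _ => sq_nonneg _
    nlinarith [mul_le_mul_of_nonneg_left h6 h7]
  have h8 : ∑ x, g x * (-(Mx * X x)) ≤ ∑ x, g x * ∑ a, f a * D (fun i => h (a i) (x i)) :=
    Finset.sum_le_sum fun x _ => mul_le_mul_of_nonneg_left (hB x) (hg x)
  refine le_trans ?_ h8
  have h9 : ∑ x, g x * (-(Mx * X x)) = -(Mx * ∑ x, g x * X x) := by
    rw [Finset.mul_sum, ← Finset.sum_neg_distrib]
    exact Finset.sum_congr rfl fun x _ => by ring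
  rw [h9]
  exact neg_le_neg (mul_le_mul_of_nonneg_left h5 hMx)

end Pool.Agent.H63.KX
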